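import Pool.Agent.Lib.K5X.Inst
import Pool.Agent.Lib.K5X.Num

set_option autoImplicit false

/-!
# MP_512cdd_co: the asymptotic number of labelled graphs without a `K_5` minor

`P512.numG n`, `P512.numC n` are the numbers of labelled graphs and of connected labelled graphs on
`n` vertices without a `K_5` minor.  There are `γ, K, K' > 0` with `numG n ~ K n^(-7/2) γ^n n!` and
`numC n ~ K' n^(-7/2) γ^n n!`, and `γ`, `K`, `K'` are given exactly: by an explicit system of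
equations in explicit elementary functions, and by derivatives along the curve which these
equations define.  Numerically `γ = 27.79261379...`, `K = 6.6035278... * 10^(-6)`,
`K' = 6.3658115... * 10^(-6)`.
-/

namespace Pool.Agent.Results.MP_512cdd_co.AsymptoticLaw

open Filter Topology P512

/-- The critical point: `Crit` (boundary of the parameter domain, `pb = 1`), the equation `pM = 0`
of the marks and the equation `pNet 1 = 0` of the networks, in a box of radius `10^(-12)`. -/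
structure CritPoint (r s y t : ℝ) : Prop where
  crit : K5N.Crit r s y t
  marks : K5C.pM r s y t = 0
  networks : K5C.pNet 1 r s y t = 0
  r_near : |r - 150590228048589430 / 10 ^ 18| ≤ 1 / 10 ^ 12
  s_near : |s - 1728695357158073024 / 10 ^ 18| ≤ 1 / 10 ^ 12
  y_near : |y - 205212204790913531 / 10 ^ 18| ≤ 1 / 10 ^ 12
  t_near : |t - 1076957403474882 / 10 ^ 18| ≤ 1 / 10 ^ 12

/-- `σ, υ, τ` are analytic at `r`, and `(q, σ q, υ q, τ q)` runs through `(r, s, y, t)` on the curve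
`pb = 1`, `pM = 0`, `pNet 1 = 0`. -/
structure Curve (r s y t : ℝ) (σ υ τ : ℝ → ℝ) : Prop where
  analytic_s : AnalyticAt ℝ σ r
  analytic_y : AnalyticAt ℝ υ r
  analytic_t : AnalyticAt ℝ τ r
  s_eq : σ r = s
  y_eq : υ r = y
  t_eq : τ r = t
  b_eq : ∀ᶠ q in 𝓝 r, K5N.pb q (σ q) (υ q) (τ q) = 1
  marks : ∀ᶠ q in 𝓝 r, K5C.pM q (σ q) (υ q) (τ q) = 0
  networks : ∀ᶠ q in 𝓝 r, K5C.pNet 1 q (σ q) (υ q) (τ q) = 0

/-- The constant computed from the value `x` of `X` at `r` and the derivatives of `X` and `b` of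
order two and three at `r`. -/
noncomputable def conn (X b : ℝ → ℝ) (r : ℝ) : ℝ :=
  X r ^ 2 * √(-(2 * X r / iteratedDeriv 2 X r)) *
      (iteratedDeriv 3 b r - iteratedDeriv 2 b r * iteratedDeriv 3 X r / iteratedDeriv 2 X r) /
    (4 * √Real.pi * iteratedDeriv 2 X r *
      (1 - X r * iteratedDeriv 2 b r / iteratedDeriv 2 X r) ^ (5 / 2 : ℝ))

theorem gamma_val : Real.Gamma (-(3 / 2)) = 4 * √Real.pi / 3 := by
  have h1 : Real.Gamma (-(1 / 2) + 1) = -(1 / 2) * Real.Gamma (-(1 / 2)) :=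
    Real.Gamma_add_one (by norm_num)
  have h2 : Real.Gamma (-(3 / 2) + 1) = -(3 / 2) * Real.Gamma (-(3 / 2)) :=
    Real.Gamma_add_one (by norm_num)
  rw [show (-(1 / 2) + 1 : ℝ) = 1 / 2 by norm_num, Real.Gamma_one_half_eq] at h1
  rw [show (-(3 / 2) + 1 : ℝ) = -(1 / 2) by norm_num] at h2
  linarith

theorem conn_eq (X b : ℝ → ℝ) (r : ℝ) : X r *
    (K5X.cThree (X r) X b r / (1 + K5X.cTwo (X r) X b r) ^ (5 / 2 : ℝ)) /
      Real.Gamma (-(3 / 2)) = conn X b r := by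
  rw [gamma_val]
  unfold K5X.cThree K5X.cTwo conn
  rw [show (1 : ℝ) + -(X r * iteratedDeriv 2 b r / iteratedDeriv 2 X r) =
    1 - X r * iteratedDeriv 2 b r / iteratedDeriv 2 X r by ring]
  have hpi : √Real.pi ≠ 0 := (Real.sqrt_pos.2 Real.pi_pos).ne'
  generalize (1 - X r * iteratedDeriv 2 b r / iteratedDeriv 2 X r) ^ (5 / 2 : ℝ) = p
  generalize √(-(2 * X r / iteratedDeriv 2 X r)) = w
  generalize (iteratedDeriv 3 b r - iteratedDeriv 2 b r * iteratedDeriv 3 X r /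
    iteratedDeriv 2 X r) = u
  generalize iteratedDeriv 2 X r = X2
  generalize X r = x
  by_cases hX : X2 = 0
  · simp [hX]
  · by_cases hp : p = 0
    · simp [hp]
    · field_simp

theorem result : ∃ γ K K' : ℝ, 0 < K ∧ 0 < K' ∧
    Tendsto (fun n : ℕ => (numG n : ℝ) /
      (K * (n : ℝ) ^ (-(7 / 2) : ℝ) * γ ^ n * n.factorial)) atTop (𝓝 1) ∧
    Tendsto (fun n : ℕ => (numC n : ℝ) /
      (K' * (n : ℝ) ^ (-(7 / 2) : ℝ) * γ ^ n * n.factorial)) atTop (𝓝 1) ∧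
    HasSum (fun n : ℕ => (numG n : ℝ) / (γ ^ n * n.factorial)) (K / K') ∧
    Tendsto (fun n : ℕ => ((numG n : ℝ) / n.factorial) ^ (1 / (n : ℝ))) atTop (𝓝 γ) ∧
    2779261379 / 10 ^ 8 ≤ γ ∧ γ ≤ 2779261380 / 10 ^ 8 ∧
    66035278 / 10 ^ 13 ≤ K ∧ K ≤ 66035279 / 10 ^ 13 ∧
    63658115 / 10 ^ 13 ≤ K' ∧ K' ≤ 63658116 / 10 ^ 13 ∧
    (∃ (r s y t : ℝ) (σ υ τ : ℝ → ℝ), CritPoint r s y t ∧ Curve r s y t σ υ τ) ∧
    ∀ r s y t : ℝ, CritPoint r s y t →
      γ = Real.exp (K5C.pBx 1 r s y t) / K5N.px r s y t ∧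
      K = K' * Real.exp (K5N.px r s y t - K5N.px r s y t * K5C.pBx 1 r s y t +
        K5C.pB 1 r s y t) ∧
      ∀ σ υ τ : ℝ → ℝ, Curve r s y t σ υ τ →
        K' = conn (fun q => K5N.px q (σ q) (υ q) (τ q))
          (fun q => K5C.pBx 1 q (σ q) (υ q) (τ q)) r := by
  have hbox : ∀ {r s y t : ℝ}, CritPoint r s y t → K5L.Box r s y t := fun h =>
    ⟨h.crit, h.marks, h.networks, h.r_near, h.s_near, h.y_near, h.t_near⟩
  obtain ⟨r, s, y, t, hB⟩ := K5L.exists_box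
  obtain ⟨σ, υ, τ, C⟩ := K5X.exists_curve hB.pc
  obtain ⟨K, K', hL, hK', hK⟩ := K5X.lawI hB
  have hg := K5X.gamma_bd hB
  have hc := K5X.cK_bd hB
  have he := K5X.cK_exp_bd hB
  rw [← hK'] at hc he
  rw [← hK] at he
  refine ⟨Real.exp (K5C.pBx 1 r s y t) / K5N.px r s y t, K, K', hL.K_pos, hL.K'_pos, hL.numG,
    hL.numC, hL.sum, hL.root, hg.1, hg.2, he.1, he.2, hc.1, hc.2,
    ⟨r, s, y, t, σ, υ, τ, ⟨hB.crit, hB.M, hB.Net, hB.r1, hB.s1, hB.y1, hB.t1⟩,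
      ⟨C.an_s, C.an_y, C.an_t, C.s_eq, C.y_eq, C.t_eq, C.b_eq, C.marks, C.networks⟩⟩,
    fun r' s' y' t' h => ?_⟩
  obtain ⟨L, L', hL1, -, hL2⟩ := K5X.lawI (hbox h)
  obtain ⟨e1, e2, e3⟩ := hL.unique hL1
  refine ⟨e1, by rw [e2, e3, hL2], fun σ' υ' τ' C' => ?_⟩
  obtain ⟨M, M', hM1, hM2⟩ := K5X.lawJ (hbox h) (σ := σ') (υ := υ') (τ := τ')
    ⟨C'.analytic_s, C'.analytic_y, C'.analytic_t, C'.s_eq, C'.y_eq, C'.t_eq, C'.b_eq, C'.marks,
      C'.networks⟩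
  obtain ⟨-, -, e4⟩ := hL.unique hM1
  rw [e4, hM2, ← conn_eq]
  show _ = K5N.px r' (σ' r') (υ' r') (τ' r') * _ / _
  rw [C'.s_eq, C'.y_eq, C'.t_eq]

end Pool.Agent.Results.MP_512cdd_co.AsymptoticLaw
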