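import Pool.Agent.Lib.P512.Final

set_option autoImplicit false

/-!
# MP_512cdd_co: effective bounds for the number of labelled graphs without a `K_5` minor

`P512.numG n` is the number of labelled graphs on `n` vertices without a `K_5` minor, `P512.numC n`
the number of connected ones.  The growth constant `γ` exists, and
`γ^n n! n^(-(600 log γ + 1700) √n) ≤ numC n ≤ numG n ≤ γ^(n+1) n!` for all `n ≥ 2`; in particular
`γ` can be computed with explicit rigorous error bounds from the numbers `numG n`.
-/

namespace Pool.Agent.Results.MP_512cdd_co.EffectiveBounds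

open Filter Topology P512

theorem result : ∃ γ : ℝ, 1 ≤ γ ∧ Real.log γ ≤ 300000 ∧
    Tendsto (fun n : ℕ => ((numG n : ℝ) / n.factorial) ^ (1 / (n : ℝ))) atTop (𝓝 γ) ∧
    Tendsto (fun n : ℕ => ((numC n : ℝ) / n.factorial) ^ (1 / (n : ℝ))) atTop (𝓝 γ) ∧
    ∀ n : ℕ, 2 ≤ n →
      γ ^ n * n.factorial * (n : ℝ) ^ (-((600 * Real.log γ + 1700) * Real.sqrt n)) ≤ numC n ∧
      numC n ≤ numG n ∧ (numG n : ℝ) ≤ γ ^ (n + 1) * n.factorial ∧
      |Real.log ((numG n : ℝ) / n.factorial) / n - Real.log γ| ≤
        200000000 * (Real.log n / Real.sqrt n) := P512.main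

end Pool.Agent.Results.MP_512cdd_co.EffectiveBounds
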